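import Mathlib

/-! Paradoxical decompositions, Hall's condition, and the lower bound for half numbers. -/

open Set Pointwise

namespace HNum

/-- A paradoxical decomposition with `m` pieces in the first half and `n` in the second. -/
def Parad (G : Type) [Group G] (m n : ℕ) : Prop :=
  ∃ (P : Fin m → Set G) (Q : Fin n → Set G) (g : Fin m → G) (h : Fin n → G),
    (∀ i j, i ≠ j → Disjoint (P i) (P j)) ∧
    (∀ i j, i ≠ j → Disjoint (Q i) (Q j)) ∧
    (∀ i j, Disjoint (P i) (Q j)) ∧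
    (⋃ i, (fun x : G => g i * x) '' P i) = Set.univ ∧
    (⋃ j, (fun x : G => h j * x) '' Q j) = Set.univ

theorem Parad.symm {G : Type} [Group G] {m n : ℕ} (h : Parad G m n) : Parad G n m := by
  obtain ⟨P, Q, g, h, hP, hQ, hPQ, hg, hh⟩ := h
  exact ⟨Q, P, h, g, hQ, hP, fun i j => (hPQ j i).symm, hh, hg⟩

/-- Hall's theorem. -/
theorem parad_of_hall {G : Type} [Group G] [DecidableEq G] {m : ℕ} (s : Fin m → G)
    (S : Finset G)
    (h : ∀ F₁ F₂ : Finset G, F₁.card + F₂.card ≤ (Finset.univ.image s * F₁ ∪ S * F₂).card) :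
    Parad G m S.card := by
  classical
  let t : G ⊕ G → Finset G := Sum.elim (fun x => Finset.univ.image s * {x}) (fun x => S * {x})
  have hall : ∀ A : Finset (G ⊕ G), A.card ≤ (A.biUnion t).card := by
    intro A
    have h1 := h A.toLeft A.toRight
    rw [Finset.card_toLeft_add_card_toRight] at h1
    refine h1.trans (Finset.card_le_card ?_)
    intro y hy
    rw [Finset.mem_biUnion]
    rcases Finset.mem_union.1 hy with hy | hy
    · obtain ⟨a, ha, x, hx, rfl⟩ := Finset.mem_mul.1 hy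
      exact ⟨Sum.inl x, Finset.mem_toLeft.1 hx,
        Finset.mul_mem_mul ha (Finset.mem_singleton_self x)⟩
    · obtain ⟨a, ha, x, hx, rfl⟩ := Finset.mem_mul.1 hy
      exact ⟨Sum.inr x, Finset.mem_toRight.1 hx,
        Finset.mul_mem_mul ha (Finset.mem_singleton_self x)⟩
  obtain ⟨f, hf, hft⟩ := (Finset.all_card_le_biUnion_card_iff_exists_injective t).1 hall
  have hl : ∀ x : G, ∃ i : Fin m, s i * x = f (Sum.inl x) := by
    intro x
    obtain ⟨a, ha, y, hy, e⟩ := Finset.mem_mul.1 (hft (Sum.inl x))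
    obtain ⟨i, _, rfl⟩ := Finset.mem_image.1 ha
    rw [Finset.mem_singleton] at hy
    exact ⟨i, by rw [← e, hy]⟩
  have hr : ∀ x : G, ∃ j : Fin S.card, (S.equivFin.symm j : G) * x = f (Sum.inr x) := by
    intro x
    obtain ⟨a, ha, y, hy, e⟩ := Finset.mem_mul.1 (hft (Sum.inr x))
    rw [Finset.mem_singleton] at hy
    exact ⟨S.equivFin ⟨a, ha⟩, by rw [Equiv.symm_apply_apply, ← e, hy]⟩
  choose i hi using hl
  choose j hj using hr
  refine ⟨fun a => {y | ∃ x, f (Sum.inl x) = y ∧ i x = a}, fun a => {y | ∃ x, f (Sum.inr x) = y ∧ j x = a},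
    fun a => (s a)⁻¹, fun a => (S.equivFin.symm a : G)⁻¹, ?_, ?_, ?_, ?_, ?_⟩
  · intro a b hab
    rw [Set.disjoint_left]
    rintro y ⟨x, hx, rfl⟩ ⟨x', hx', rfl⟩
    have h1 : x = x' := Sum.inl_injective (hf (hx.trans hx'.symm))
    exact hab (by rw [h1])
  · intro a b hab
    rw [Set.disjoint_left]
    rintro y ⟨x, hx, rfl⟩ ⟨x', hx', rfl⟩
    have h1 : x = x' := Sum.inr_injective (hf (hx.trans hx'.symm))
    exact hab (by rw [h1])
  · intro a b
    rw [Set.disjoint_left]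
    rintro y ⟨x, hx, -⟩ ⟨x', hx', -⟩
    have h1 : (Sum.inl x : G ⊕ G) = Sum.inr x' := hf (hx.trans hx'.symm)
    exact absurd h1 Sum.inl_ne_inr
  · rw [Set.eq_univ_iff_forall]
    intro x
    rw [Set.mem_iUnion]
    refine ⟨i x, f (Sum.inl x), ⟨x, rfl, rfl⟩, ?_⟩
    change (s (i x))⁻¹ * f (Sum.inl x) = x
    rw [← hi x, inv_mul_cancel_left]
  · rw [Set.eq_univ_iff_forall]
    intro x
    rw [Set.mem_iUnion]
    refine ⟨j x, f (Sum.inr x), ⟨x, rfl, rfl⟩, ?_⟩
    change (S.equivFin.symm (j x) : G)⁻¹ * f (Sum.inr x) = x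
    rw [← hj x, inv_mul_cancel_left]

/-- If one half has at most `k + 1` pieces, then some `k` elements generate an infinite
subgroup. -/
theorem lower {G : Type} [Group G] {m n k : ℕ} (h : Parad G m n) (hk : m ≤ k + 1) :
    ∃ a : Fin k → G, Infinite (Subgroup.closure (Set.range a)) := by
  by_contra hcon
  push Not at hcon
  obtain ⟨P, Q, g, h, hP, hQ, hPQ, hg, hh⟩ := h
  have hm : 0 < m := by
    rcases Nat.eq_zero_or_pos m with hm | hm
    · subst hm
      have h1 : (1 : G) ∈ ⋃ i, (fun x : G => g i * x) '' P i := by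
        rw [hg]
        exact Set.mem_univ _
      obtain ⟨i, _⟩ := Set.mem_iUnion.1 h1
      exact i.elim0
    · exact hm
  let a : Fin k → G := fun j => if hj : j.1 + 1 < m then (g ⟨0, hm⟩)⁻¹ * g ⟨j.1 + 1, hj⟩ else 1
  have hK : Finite (Subgroup.closure (Set.range a)) := hcon a
  have hu : ∀ i : Fin m, (g ⟨0, hm⟩)⁻¹ * g i ∈ Subgroup.closure (Set.range a) := by
    rintro ⟨i, hi⟩
    rcases Nat.eq_zero_or_pos i with h0 | h0
    · subst h0
      rw [inv_mul_cancel]
      exact Subgroup.one_mem _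
    · refine Subgroup.subset_closure ⟨⟨i - 1, by omega⟩, ?_⟩
      have h1 : i - 1 + 1 = i := by omega
      have h2 : i - 1 + 1 < m := by omega
      change (if hj : i - 1 + 1 < m then (g ⟨0, hm⟩)⁻¹ * g ⟨i - 1 + 1, hj⟩ else 1) = _
      rw [dif_pos h2]
      simp only [h1]
  have hcov : ∀ y : G, ∃ (i : Fin m) (p : G), p ∈ P i ∧ (g ⟨0, hm⟩)⁻¹ * g i * p = y := by
    intro y
    have h1 : g ⟨0, hm⟩ * y ∈ ⋃ i, (fun x : G => g i * x) '' P i := by
      rw [hg]
      exact Set.mem_univ _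
    obtain ⟨i, p, hp, e⟩ := Set.mem_iUnion.1 h1
    refine ⟨i, p, hp, ?_⟩
    have e' : g i * p = g ⟨0, hm⟩ * y := e
    rw [mul_assoc, e', inv_mul_cancel_left]
  choose ι p hp1 hp2 using hcov
  have hx : ∀ x : G, ∃ i, x ∈ P i := by
    intro x
    let q : Subgroup.closure (Set.range a) → Subgroup.closure (Set.range a) := fun κ =>
      ⟨((g ⟨0, hm⟩)⁻¹ * g (ι (κ * x)))⁻¹ * κ, Subgroup.mul_mem _ (Subgroup.inv_mem _ (hu _)) κ.2⟩
    have hqp : ∀ κ : Subgroup.closure (Set.range a), (q κ : G) * x = p (κ * x) := by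
      intro κ
      change ((g ⟨0, hm⟩)⁻¹ * g (ι (κ * x)))⁻¹ * (κ : G) * x = p (κ * x)
      rw [mul_assoc _ (κ : G) x, inv_mul_eq_iff_eq_mul]
      exact (hp2 (κ * x)).symm
    have hq : Function.Injective q := by
      intro κ κ' hκ
      have h1 : p (κ * x) = p (κ' * x) := by rw [← hqp, ← hqp, hκ]
      have h2 : ι (κ * x) = ι (κ' * x) := by
        by_contra hne
        have h3 := Set.disjoint_left.1 (hP _ _ hne) (hp1 (κ * x))
        rw [h1] at h3
        exact h3 (hp1 (κ' * x))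
      have h3 : (κ : G) * x = κ' * x := by
        rw [← hp2 (κ * x), ← hp2 (κ' * x), h2, h1]
      exact Subtype.ext (mul_right_cancel h3)
    obtain ⟨κ, hκ⟩ := Finite.injective_iff_surjective.1 hq 1
    refine ⟨ι (κ * x), ?_⟩
    have h1 := hqp κ
    rw [hκ, Subgroup.coe_one, one_mul] at h1
    have h2 := hp1 (κ * x)
    rw [← h1] at h2
    exact h2
  have h1 : (1 : G) ∈ ⋃ j, (fun x : G => h j * x) '' Q j := by
    rw [hh]
    exact Set.mem_univ _
  obtain ⟨j, y, hy, _⟩ := Set.mem_iUnion.1 h1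
  obtain ⟨i, hi⟩ := hx y
  exact Set.disjoint_left.1 (hPQ i j) hi hy

end HNum
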