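import Pool.Agent.Lib.MP_354e85_al.HN.Prob
import Pool.Agent.Lib.MP_354e85_al.HN.Parad

/-! The hub edges. -/

open MeasureTheory Set Pointwise

namespace HNum

theorem growth_pow {G : Type} [Group G] [DecidableEq G] (T : Finset G) (η : ℝ) (hη : 0 ≤ η)
    (hg : ∀ B : Finset G, B.Nonempty → (1 + η) * B.card ≤ ((T * B).card : ℝ)) (k : ℕ)
    (B : Finset G) (hB : B.Nonempty) : (1 + η) ^ k * B.card ≤ ((T ^ k * B).card : ℝ) := by
  have hB0 : (0 : ℝ) < B.card := by exact_mod_cast hB.card_pos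
  induction k with
  | zero => simp
  | succ k ih =>
    have hne : (T ^ k * B).Nonempty := by
      rw [← Finset.card_pos]
      have h1 : (0 : ℝ) < (1 + η) ^ k * B.card := by positivity
      have h2 : (0 : ℝ) < ((T ^ k * B).card : ℝ) := lt_of_lt_of_le h1 ih
      exact_mod_cast h2
    rw [pow_succ', pow_succ', mul_assoc, mul_assoc]
    refine le_trans ?_ (hg _ hne)
    exact mul_le_mul_of_nonneg_left ih (by linarith)

theorem alpha_grow {G : Type} [Group G] [Countable G] [DecidableEq G] {n : ℕ} (a : Fin n → G)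
    (e : Fin n → ℕ) (he : Function.Injective e) (η : ℝ) (hη : 0 < η)
    (h : ∀ M, 0 < M → ENNReal.ofReal (1 + η) ≤ ∑ j, pk ⊥ a e M j) (B : Finset G)
    (hB : B.Nonempty) :
    (1 + η) * B.card ≤
      (((Finset.univ.image (Fin.cons 1 a : Fin (n + 1) → G)) * B).card : ℝ) := by
  classical
  set T : Finset G := Finset.univ.image (Fin.cons 1 a : Fin (n + 1) → G) with hT
  have h1T : (1 : G) ∈ T := by
    rw [hT, Finset.mem_image]
    exact ⟨0, Finset.mem_univ _, rfl⟩
  have haT : ∀ j, a j ∈ T := by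
    intro j
    rw [hT, Finset.mem_image]
    exact ⟨j.succ, Finset.mem_univ _, rfl⟩
  set V : Finset (Quotient (QuotientGroup.rightRel (⊥ : Subgroup G))) :=
    (T * B).image (Quotient.mk (QuotientGroup.rightRel (⊥ : Subgroup G))) with hV
  have hM := kept_prob (⊥ : Subgroup G) a e he B hB V
    (by
      intro b hb
      rw [hV]
      refine Finset.mem_image_of_mem _ ?_
      have := Finset.mul_mem_mul h1T hb
      rwa [one_mul] at this)
    (by
      intro b hb j
      rw [hV]
      exact Finset.mem_image_of_mem _ (Finset.mul_mem_mul (haT j) hb))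
    ((B.card * Fintype.card (Fin n)) ^ 3 + 1) (Nat.succ_pos _) (Nat.le_succ _)
  have h2 : (B.card : ENNReal) * ENNReal.ofReal (1 + η) ≤ ((T * B).card : ENNReal) := by
    refine le_trans ?_ (le_trans hM ?_)
    · exact mul_le_mul_right (h _ (Nat.succ_pos _)) _
    · exact_mod_cast Finset.card_image_le
  have h3 : ((B.card : ENNReal) * ENNReal.ofReal (1 + η)).toReal ≤
      (((T * B).card : ENNReal)).toReal :=
    ENNReal.toReal_mono (ENNReal.natCast_ne_top _) h2
  rw [ENNReal.toReal_mul, ENNReal.toReal_natCast, ENNReal.toReal_natCast,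
    ENNReal.toReal_ofReal (by linarith)] at h3
  linarith

/-- If `G` has no paradoxical decomposition with `n + 1` pieces in one half, then the kept hub
edges have mass close to one. -/
theorem alpha {G : Type} [Group G] [Countable G] {n : ℕ} (a : Fin n → G)
    (hno : ∀ N, ¬ Parad G (n + 1) N) (e : Fin n → ℕ) (he : Function.Injective e) (η : ℝ)
    (hη : 0 < η) : ∃ M, 0 < M ∧ ∑ j, pk ⊥ a e M j < ENNReal.ofReal (1 + η) := by
  classical
  by_contra hcon
  simp only [not_exists, not_and, not_lt] at hcon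
  have hg := alpha_grow a e he η hη hcon
  set T : Finset G := Finset.univ.image (Fin.cons 1 a : Fin (n + 1) → G) with hT
  obtain ⟨k, hk⟩ := pow_unbounded_of_one_lt (1 / η) (show (1 : ℝ) < 1 + η by linarith)
  have hk' : 1 ≤ η * (1 + η) ^ k := by
    rw [div_lt_iff₀ hη] at hk
    linarith
  refine hno (T ^ (k + 1)).card (parad_of_hall (Fin.cons 1 a : Fin (n + 1) → G) (T ^ (k + 1)) ?_)
  intro F₁ F₂
  rw [← hT]
  have hX : T * (F₁ ∪ T ^ k * F₂) = T * F₁ ∪ T ^ (k + 1) * F₂ := by
    rw [Finset.mul_union, ← mul_assoc, ← pow_succ']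
  have h1 : (1 + η) * ((F₁ ∪ T ^ k * F₂).card : ℝ) ≤ ((T * (F₁ ∪ T ^ k * F₂)).card : ℝ) := by
    rcases Finset.eq_empty_or_nonempty (F₁ ∪ T ^ k * F₂) with h | h
    · rw [h]
      simp
    · exact hg _ h
  have h2 : (F₁.card : ℝ) ≤ ((F₁ ∪ T ^ k * F₂).card : ℝ) := by
    exact_mod_cast Finset.card_le_card Finset.subset_union_left
  have h3 : (F₂.card : ℝ) ≤ η * ((F₁ ∪ T ^ k * F₂).card : ℝ) := by
    rcases Finset.eq_empty_or_nonempty F₂ with h | h
    · rw [h, Finset.card_empty, Nat.cast_zero]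
      positivity
    · have h4 := growth_pow T η hη.le hg k F₂ h
      have h5 : ((T ^ k * F₂).card : ℝ) ≤ ((F₁ ∪ T ^ k * F₂).card : ℝ) := by
        exact_mod_cast Finset.card_le_card Finset.subset_union_right
      have h6 : η * ((1 + η) ^ k * (F₂.card : ℝ)) ≤ η * ((F₁ ∪ T ^ k * F₂).card : ℝ) :=
        mul_le_mul_of_nonneg_left (le_trans h4 h5) hη.le
      have h7 : 1 * (F₂.card : ℝ) ≤ (η * (1 + η) ^ k) * (F₂.card : ℝ) :=
        mul_le_mul_of_nonneg_right hk' (Nat.cast_nonneg _)
      linarith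
  rw [hX] at h1
  have h8 : ((F₁.card + F₂.card : ℕ) : ℝ) ≤ ((T * F₁ ∪ T ^ (k + 1) * F₂).card : ℝ) := by
    push_cast
    linarith
  exact_mod_cast h8

end HNum
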