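import Pool.Agent.Lib.MP_354e85_al.Lim.Forest
import Pool.Agent.Lib.MP_354e85_al.Lim.Meas
import Pool.Agent.Lib.MP_354e85_al.Lim.AmenCost

/-! The space of labels, classes, kept edges and the probability that an edge is kept. -/

open MeasureTheory Set

namespace HNum

open Pool.Agent.Lib.MP_354e85_al (bern prob01 bern_diag)
open Pool.Agent.Lib.MP_354e85_al.Lim (Low Kept Edge measurableSet_eqvGen bern_perm)

section

variable {G : Type} [Group G]

/-- The action of `G` on the labels. -/
def act (g : G) (ω : G × ℕ → ℝ) : G × ℕ → ℝ := fun p => ω (p.1 * g, p.2)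

theorem act_one (ω : G × ℕ → ℝ) : act 1 ω = ω := by
  funext p
  simp [act]

theorem act_mul (g h : G) (ω : G × ℕ → ℝ) : act (g * h) ω = act g (act h ω) := by
  funext p
  simp [act, mul_assoc]

theorem act_mp (g : G) : MeasurePreserving (act g) (bern (G × ℕ)) (bern (G × ℕ)) := by
  have h := bern_perm ((Equiv.mulRight g).prodCongr (Equiv.refl ℕ))
  exact h

/-- The class of the edge of type `j` at `x`: one of `M` classes, read off the coordinate `e j`. -/
noncomputable def cl {ι : Type} (M : ℕ) (e : ι → ℕ) (ω : G × ℕ → ℝ) (x : G) (j : ι) : ℕ :=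
  ⌊(M : ℝ) * ω (x, e j)⌋₊

theorem cl_act {ι : Type} (M : ℕ) (e : ι → ℕ) (ω : G × ℕ → ℝ) (g x : G) (j : ι) :
    cl M e (act g ω) x j = cl M e ω (x * g) j := rfl

theorem low_act {ι : Type} (L : Subgroup G) (c : ι → G) (M : ℕ) (e : ι → ℕ) (ω : G × ℕ → ℝ)
    (g : G) (k : ℕ) (x y : G) :
    Low L c (cl M e (act g ω)) univ k x y ↔ Low L c (cl M e ω) univ k (x * g) (y * g) := by
  unfold Low
  simp only [cl_act, ← mul_assoc, mul_left_inj]

theorem eqvGen_act {ι : Type} (L : Subgroup G) (c : ι → G) (M : ℕ) (e : ι → ℕ) (ω : G × ℕ → ℝ)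
    (g : G) (k : ℕ) (x y : G) :
    Relation.EqvGen (Low L c (cl M e (act g ω)) univ k) x y ↔
      Relation.EqvGen (Low L c (cl M e ω) univ k) (x * g) (y * g) := by
  constructor
  · intro h
    induction h with
    | rel x y h => exact Relation.EqvGen.rel _ _ ((low_act L c M e ω g k x y).1 h)
    | refl x => exact Relation.EqvGen.refl _
    | symm x y _ ih => exact ih.symm _ _
    | trans x y z _ _ ih1 ih2 => exact ih1.trans _ _ _ ih2
  · intro h
    have key : ∀ x' y' : G, Relation.EqvGen (Low L c (cl M e ω) univ k) x' y' →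
        Relation.EqvGen (Low L c (cl M e (act g ω)) univ k) (x' * g⁻¹) (y' * g⁻¹) := by
      intro x' y' h
      induction h with
      | rel x y h =>
        apply Relation.EqvGen.rel
        rw [low_act]
        simpa using h
      | refl x => exact Relation.EqvGen.refl _
      | symm x y _ ih => exact ih.symm _ _
      | trans x y z _ _ ih1 ih2 => exact ih1.trans _ _ _ ih2
    simpa using key _ _ h

theorem kept_act {ι : Type} (L : Subgroup G) (c : ι → G) (M : ℕ) (e : ι → ℕ) (ω : G × ℕ → ℝ)
    (g x : G) (j : ι) :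
    Kept L c (cl M e (act g ω)) univ x j ↔ Kept L c (cl M e ω) univ (x * g) j := by
  unfold Kept
  rw [eqvGen_act, cl_act, mul_assoc]

theorem measurable_cl {ι : Type} (M : ℕ) (e : ι → ℕ) (x : G) (j : ι) :
    Measurable (fun ω : G × ℕ → ℝ => cl M e ω x j) := by
  unfold cl
  exact Nat.measurable_floor.comp ((measurable_pi_apply (x, e j)).const_mul _)

theorem measurableSet_kept [Countable G] {ι : Type} [Countable ι] (L : Subgroup G) (c : ι → G)
    (M : ℕ) (e : ι → ℕ) (x : G) (j : ι) :
    MeasurableSet {ω : G × ℕ → ℝ | Kept L c (cl M e ω) univ x j} := by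
  have : {ω : G × ℕ → ℝ | Kept L c (cl M e ω) univ x j} =
      {ω | Relation.EqvGen (Low L c (cl M e ω) univ (cl M e ω x j)) x (c j * x)}ᶜ := rfl
  rw [this]
  refine (measurableSet_eqvGen _ (fun a b => ?_) _ _).compl
  have h2 : {ω : G × ℕ → ℝ | Low L c (cl M e ω) univ (cl M e ω x j) a b} =
      {_ω | ∃ h ∈ L, h * a = b} ∪ ⋃ i : ι, ({ω | cl M e ω a i < cl M e ω x j} ∩
        {_ω | c i * a = b}) := by
    ext ω
    simp only [Low, mem_ofPred_eq, mem_union, mem_iUnion, mem_inter_iff]
    constructor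
    · rintro (h | ⟨i, -, h2, h3⟩)
      · exact Or.inl h
      · exact Or.inr ⟨i, h2, h3⟩
    · rintro (h | ⟨i, h2, h3⟩)
      · exact Or.inl h
      · exact Or.inr ⟨i, mem_univ _, h2, h3⟩
  rw [h2]
  refine (MeasurableSet.const _).union (MeasurableSet.iUnion fun i => ?_)
  exact (measurableSet_lt (measurable_cl M e a i) (measurable_cl M e x j)).inter
    (MeasurableSet.const _)

/-- The probability that the edge of type `j` is kept. -/
noncomputable def pk {ι : Type} (L : Subgroup G) (c : ι → G) (e : ι → ℕ) (M : ℕ) (j : ι) :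
    ENNReal :=
  bern (G × ℕ) {ω | Kept L c (cl M e ω) univ 1 j}

theorem pk_at [Countable G] {ι : Type} [Countable ι] (L : Subgroup G) (c : ι → G) (e : ι → ℕ)
    (M : ℕ) (j : ι) (x : G) :
    bern (G × ℕ) {ω | Kept L c (cl M e ω) univ x j} = pk L c e M j := by
  have h := (act_mp x).measure_preimage (measurableSet_kept L c M e 1 j).nullMeasurableSet
  unfold pk
  rw [← h]
  congr 1
  ext ω
  simp only [mem_ofPred_eq, mem_preimage]
  rw [kept_act, one_mul]

end

end HNum
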