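import Pool.Agent.Lib.MP_354e85_al.HN.Alpha
import Pool.Agent.Lib.MP_354e85_al.Lim.Hub

/-! The edges over the hub. -/

open MeasureTheory Set Pointwise

namespace HNum

/-- If `G` has no paradoxical decomposition with `n + 1` pieces in one half and the hub is
infinite, then the kept edges over a subgroup containing the hub have small mass. -/
theorem beta {G : Type} [Group G] [Countable G] {n : ℕ} (a : Fin n → G)
    (hinf : Infinite (Subgroup.closure (Set.range a)))
    (hno : ∀ N, ¬ Parad G (n + 1) N) (L : Subgroup G) (hL : Subgroup.closure (Set.range a) ≤ L)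
    (s : G) (e : Unit → ℕ) (η : ℝ) (hη : 0 < η) :
    ∃ M, 0 < M ∧ pk L (fun _ : Unit => s) e M () < ENNReal.ofReal η := by
  classical
  by_contra hcon
  push Not at hcon
  obtain ⟨T1, hT1⟩ : ∃ T1 : Finset G, T1 = insert 1 (Finset.univ.image a) := ⟨_, rfl⟩
  obtain ⟨T, hT⟩ : ∃ T : Finset G, T = insert s T1 := ⟨_, rfl⟩
  have h1T1 : (1 : G) ∈ T1 := by rw [hT1]; exact Finset.mem_insert_self _ _
  have haT1 : ∀ i, a i ∈ T1 := fun i => by
    rw [hT1]
    exact Finset.mem_insert_of_mem (Finset.mem_image_of_mem _ (Finset.mem_univ _))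
  have hsT : s ∈ T := by rw [hT]; exact Finset.mem_insert_self _ _
  have hTT : T1 ⊆ T := by rw [hT]; exact Finset.subset_insert _ _
  have hC : ∀ F₁ F₂ : Finset G, F₂.Nonempty →
      (F₁.card : ℝ) + η * F₂.card ≤ ((T1 * F₁ ∪ T * F₂).card : ℝ) := by
    intro F₁ F₂ hF₂
    obtain ⟨W, hW⟩ : ∃ W : Finset G, W = T1 * F₁ ∪ T * F₂ := ⟨_, rfl⟩
    rw [← hW]
    have hAW : ∀ x ∈ F₁, x ∈ W := by
      intro x hx
      rw [hW, Finset.mem_union]
      left
      have h := Finset.mul_mem_mul h1T1 hx
      rwa [one_mul] at h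
    have haW : ∀ x ∈ F₁, ∀ i, a i * x ∈ W := by
      intro x hx i
      rw [hW, Finset.mem_union]
      exact Or.inl (Finset.mul_mem_mul (haT1 i) hx)
    have h1 := Pool.Agent.Lib.MP_354e85_al.Lim.coset_count a hinf F₁ W hAW haW
    obtain ⟨V, hV⟩ : ∃ V : Finset (Quotient (QuotientGroup.rightRel L)),
      V = W.image (Quotient.mk (QuotientGroup.rightRel L)) := ⟨_, rfl⟩
    have hVc : V.card ≤ (W.image (Quotient.mk (QuotientGroup.rightRel
        (Subgroup.closure (Set.range a))))).card := by
      let f : Quotient (QuotientGroup.rightRel (Subgroup.closure (Set.range a))) →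
          Quotient (QuotientGroup.rightRel L) :=
        Quotient.lift (Quotient.mk (QuotientGroup.rightRel L)) (by
          intro x y hxy
          exact Quotient.sound (QuotientGroup.rightRel_apply.2
            (hL (QuotientGroup.rightRel_apply.1 hxy))))
      have h2 : V = (W.image (Quotient.mk (QuotientGroup.rightRel
          (Subgroup.closure (Set.range a))))).image f := by
        rw [Finset.image_image, hV]
        rfl
      rw [h2]
      exact Finset.card_image_le
    have hM0 : 0 < (F₂.card * Fintype.card Unit) ^ 3 := by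
      rw [Fintype.card_unit, mul_one]
      exact pow_pos hF₂.card_pos 3
    have h3 := kept_prob L (fun _ : Unit => s) e (fun _ _ _ => Subsingleton.elim _ _) F₂ hF₂ V
      (by
        intro b hb
        rw [hV]
        refine Finset.mem_image_of_mem _ ?_
        rw [hW, Finset.mem_union]
        right
        have h := Finset.mul_mem_mul (hTT h1T1) hb
        rwa [one_mul] at h)
      (by
        intro b hb _
        rw [hV]
        refine Finset.mem_image_of_mem _ ?_
        rw [hW, Finset.mem_union]
        exact Or.inr (Finset.mul_mem_mul hsT hb))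
      _ hM0 le_rfl
    have h4 := hcon _ hM0
    rw [Fintype.sum_unique] at h3
    have h5 : ENNReal.ofReal ((F₂.card : ℝ) * η) ≤ ENNReal.ofReal (V.card : ℝ) := by
      rw [ENNReal.ofReal_mul (Nat.cast_nonneg _), ENNReal.ofReal_natCast, ENNReal.ofReal_natCast]
      exact (mul_le_mul_right h4 _).trans h3
    have h6 : (F₂.card : ℝ) * η ≤ V.card :=
      (ENNReal.ofReal_le_ofReal_iff (Nat.cast_nonneg _)).1 h5
    have h7 : V.card + F₁.card ≤ W.card := (Nat.add_le_add_right hVc _).trans h1
    have h8 : (V.card : ℝ) + F₁.card ≤ W.card := by exact_mod_cast h7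
    linarith
  have hg : ∀ B : Finset G, B.Nonempty → (1 + η) * B.card ≤ ((T * B).card : ℝ) := by
    intro B hB
    have h := hC B B hB
    rw [Finset.union_eq_right.2 (Finset.mul_subset_mul_right hTT)] at h
    linarith
  obtain ⟨k, hk⟩ := pow_unbounded_of_one_lt (1 / η) (show (1 : ℝ) < 1 + η by linarith)
  have hk' : 1 ≤ η * (1 + η) ^ k := by
    rw [div_lt_iff₀ hη] at hk
    linarith
  refine hno (T ^ (k + 1)).card (parad_of_hall (Fin.cons 1 a) (T ^ (k + 1)) fun F₁ F₂ => ?_)
  have hs : Finset.univ.image (Fin.cons 1 a : Fin (n + 1) → G) = T1 := by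
    rw [hT1]
    ext x
    simp only [Finset.mem_image, Finset.mem_univ, true_and, Finset.mem_insert,
      Fin.exists_fin_succ, Fin.cons_zero, Fin.cons_succ]
    constructor
    · rintro (h | h)
      · exact Or.inl h.symm
      · exact Or.inr h
    · rintro (h | h)
      · exact Or.inl h.symm
      · exact Or.inr h
  rw [hs]
  rcases F₂.eq_empty_or_nonempty with rfl | hF₂
  · rw [Finset.card_empty, add_zero, Finset.mul_empty, Finset.union_empty]
    refine Finset.card_le_card fun x hx => ?_
    have h := Finset.mul_mem_mul h1T1 hx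
    rwa [one_mul] at h
  · have hne : (T ^ k * F₂).Nonempty := by
      have h1 : (T ^ k).Nonempty := Finset.Nonempty.pow ⟨s, hsT⟩
      exact h1.mul hF₂
    have h1 := hC F₁ (T ^ k * F₂) hne
    have h2 := growth_pow T η hη.le hg k F₂ hF₂
    rw [pow_succ', mul_assoc]
    have h3 : (F₂.card : ℝ) ≤ η * ((T ^ k * F₂).card : ℝ) := by
      have h4 : (F₂.card : ℝ) ≤ η * (1 + η) ^ k * F₂.card := by
        have h5 : (0 : ℝ) ≤ F₂.card := Nat.cast_nonneg _
        nlinarith
      calc (F₂.card : ℝ) ≤ η * (1 + η) ^ k * F₂.card := h4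
        _ = η * ((1 + η) ^ k * F₂.card) := by ring
        _ ≤ η * ((T ^ k * F₂).card : ℝ) := mul_le_mul_of_nonneg_left h2 hη.le
    have h5 : ((F₁.card + F₂.card : ℕ) : ℝ) ≤ ((T1 * F₁ ∪ T * (T ^ k * F₂)).card : ℝ) := by
      push_cast
      linarith
    exact_mod_cast h5

end HNum
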