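import Pool.Agent.Lib.MP_354e85_al.Lim.Forest

/-! The deterministic count of kept edges, for finitely many types of edges. -/

open Set

namespace HNum

open Pool.Agent.Lib.MP_354e85_al.Lim (Low Kept forest_card)

theorem multi_kept {G : Type} [Group G] {ι : Type} [Fintype ι] (L : Subgroup G) (c : ι → G)
    (κ : G → ι → ℕ) (B : Finset G) (hB : B.Nonempty)
    (V : Finset (Quotient (QuotientGroup.rightRel L)))
    (hV0 : ∀ b ∈ B, Quotient.mk (QuotientGroup.rightRel L) b ∈ V)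
    (hV1 : ∀ b ∈ B, ∀ j, Quotient.mk (QuotientGroup.rightRel L) (c j * b) ∈ V)
    (hdist : ∀ b ∈ B, ∀ b' ∈ B, ∀ j j' : ι, κ b j = κ b' j' → b = b' ∧ j = j') :
    (∑ j, {b | b ∈ B ∧ Kept L c κ univ b j}.ncard) + 1 ≤ V.card := by
  classical
  let K : ι → Finset G := fun j => B.filter (fun b => Kept L c κ univ b j)
  have e1 : ∀ j, {b | b ∈ B ∧ Kept L c κ univ b j}.ncard = (K j).card := by
    intro j
    rw [← Set.ncard_coe_finset]
    congr 1
    ext b
    simp [K]
  rw [Finset.sum_congr rfl fun j _ => e1 j]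
  let q : G → Quotient (QuotientGroup.rightRel L) := Quotient.mk (QuotientGroup.rightRel L)
  let E := Sigma fun j : ι => K j
  let pt : E → G := fun e => (e.2 : G)
  let jj : E → ι := fun e => e.1
  have hpt : ∀ e : E, pt e ∈ B := fun e => (Finset.mem_filter.1 e.2.2).1
  have hk : ∀ e : E, Kept L c κ univ (pt e) (jj e) := fun e => (Finset.mem_filter.1 e.2.2).2
  have hE : Fintype.card E = ∑ j, (K j).card := by
    rw [Fintype.card_sigma]
    exact Finset.sum_congr rfl fun j _ => Fintype.card_coe _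
  rw [← hE]
  obtain ⟨b0, hb0⟩ := hB
  refine forest_card V ⟨q b0, hV0 b0 hb0⟩ (fun e => q (pt e)) (fun e => q (c (jj e) * pt e))
    (fun e => hV0 _ (hpt e)) (fun e => hV1 _ (hpt e) _) (fun e => κ (pt e) (jj e)) ?_ ?_
  · rintro ⟨j, b⟩ ⟨j', b'⟩ hee
    obtain ⟨h1, h2⟩ := hdist _ (hpt ⟨j, b⟩) _ (hpt ⟨j', b'⟩) j j' hee
    subst h2
    have h3 : b = b' := Subtype.ext h1
    rw [h3]
  · intro e
    have hcl : ∀ x h, h ∈ L → Relation.EqvGen (Low L c κ univ (κ (pt e) (jj e))) (h * x) x := by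
      intro x h hh
      have h1 : Low L c κ univ (κ (pt e) (jj e)) x (h * x) := Or.inl ⟨h, hh, rfl⟩
      exact (Relation.EqvGen.rel _ _ h1).symm _ _
    have hq : ∀ x y : G, q x = q y → Relation.EqvGen (Low L c κ univ (κ (pt e) (jj e))) x y := by
      intro x y hxy
      have h1 := Quotient.exact hxy
      have h2 : y * x⁻¹ ∈ L := QuotientGroup.rightRel_apply.1 h1
      have h3 := hcl x _ h2
      rw [inv_mul_cancel_right] at h3
      exact h3.symm _ _
    refine ⟨{a | ∃ x, q x = a ∧ Relation.EqvGen (Low L c κ univ (κ (pt e) (jj e))) (pt e) x},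
      ⟨pt e, rfl, Relation.EqvGen.refl _⟩, ?_, ?_⟩
    · rintro ⟨x, hx1, hx2⟩
      exact hk e (hx2.trans _ _ _ (hq _ _ hx1))
    · intro e' he'
      have hedge : Relation.EqvGen (Low L c κ univ (κ (pt e) (jj e))) (pt e')
          (c (jj e') * pt e') :=
        Relation.EqvGen.rel _ _ (Or.inr ⟨jj e', mem_univ _, he', rfl⟩)
      constructor
      · rintro ⟨x, hx1, hx2⟩
        exact ⟨c (jj e') * pt e', rfl, (hx2.trans _ _ _ (hq _ _ hx1)).trans _ _ _ hedge⟩
      · rintro ⟨x, hx1, hx2⟩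
        exact ⟨pt e', rfl, (hx2.trans _ _ _ (hq _ _ hx1)).trans _ _ _ (hedge.symm _ _)⟩

end HNum
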