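import Pool.Agent.Lib.MP_354e85_al.HN.Parad

/-! Exact paradoxical decompositions. -/

open Set

namespace HNum

/-- A paradoxical decomposition with `m` pieces in the first half and `n` in the second, in the
exact sense: `G` is partitioned into all the pieces, into the translates of the first half and
into the translates of the second half. -/
def ParadE (G : Type) [Group G] (m n : ℕ) : Prop :=
  ∃ (A : Fin m → Set G) (B : Fin n → Set G) (g : Fin m → G) (h : Fin n → G),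
    (∀ x : G, ∃! p : Fin m ⊕ Fin n, x ∈ Sum.elim A B p) ∧
    (∀ x : G, ∃! i : Fin m, (g i)⁻¹ * x ∈ A i) ∧
    (∀ x : G, ∃! j : Fin n, (h j)⁻¹ * x ∈ B j)

theorem ParadE.parad {G : Type} [Group G] {m n : ℕ} (h : ParadE G m n) : Parad G m n := by
  obtain ⟨A, B, g, h, h1, h2, h3⟩ := h
  refine ⟨A, B, g, h, ?_, ?_, ?_, ?_, ?_⟩
  · intro i j hij
    rw [Set.disjoint_left]
    intro x hx hx'
    apply hij
    have := (h1 x).unique (y₁ := Sum.inl i) (y₂ := Sum.inl j) hx hx'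
    simpa using this
  · intro i j hij
    rw [Set.disjoint_left]
    intro x hx hx'
    apply hij
    have := (h1 x).unique (y₁ := Sum.inr i) (y₂ := Sum.inr j) hx hx'
    simpa using this
  · intro i j
    rw [Set.disjoint_left]
    intro x hx hx'
    have := (h1 x).unique (y₁ := Sum.inl i) (y₂ := Sum.inr j) hx hx'
    simp at this
  · rw [Set.eq_univ_iff_forall]
    intro x
    obtain ⟨i, hi, -⟩ := h2 x
    exact Set.mem_iUnion.2 ⟨i, ⟨(g i)⁻¹ * x, hi, by simp⟩⟩
  · rw [Set.eq_univ_iff_forall]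
    intro x
    obtain ⟨i, hi, -⟩ := h3 x
    exact Set.mem_iUnion.2 ⟨i, ⟨(h i)⁻¹ * x, hi, by simp⟩⟩

theorem ParadE.symm {G : Type} [Group G] {m n : ℕ} (h : ParadE G m n) : ParadE G n m := by
  obtain ⟨A, B, g, h, h1, h2, h3⟩ := h
  refine ⟨B, A, h, g, fun x => ?_, h3, h2⟩
  obtain ⟨p, hp, hu⟩ := h1 x
  refine ⟨p.swap, ?_, ?_⟩
  · rcases p with i | j
    · exact hp
    · exact hp
  · intro q hq
    have hq' : x ∈ Sum.elim A B q.swap := by
      rcases q with i | j
      · exact hq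
      · exact hq
    have := hu q.swap hq'
    rw [← this, Sum.swap_swap]

theorem Parad.exact {G : Type} [Group G] {m n : ℕ} (h : Parad G m n) : ParadE G m n := by
  classical
  obtain ⟨P, Q, g, h, hP, hQ, hPQ, hg, hh⟩ := h
  rw [Set.eq_univ_iff_forall] at hg hh
  have hg' : ∀ x, ∃ i, (g i)⁻¹ * x ∈ P i := by
    intro x
    obtain ⟨i, z, hz, hzx⟩ := Set.mem_iUnion.1 (hg x)
    have hzx' : g i * z = x := hzx
    exact ⟨i, by rw [← hzx']; simpa using hz⟩
  have hh' : ∀ x, ∃ j, (h j)⁻¹ * x ∈ Q j := by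
    intro x
    obtain ⟨i, z, hz, hzx⟩ := Set.mem_iUnion.1 (hh x)
    have hzx' : h i * z = x := hzx
    exact ⟨i, by rw [← hzx']; simpa using hz⟩
  obtain ⟨j0, -⟩ := hh' 1
  -- normalise
  let u : Fin n → G := fun j => (h j0)⁻¹ * h j
  have hu0 : u j0 = 1 := by simp [u]
  have hu' : ∀ x, ∃ j, (u j)⁻¹ * x ∈ Q j := by
    intro x
    obtain ⟨j, hj⟩ := hh' (h j0 * x)
    refine ⟨j, ?_⟩
    have : (u j)⁻¹ * x = (h j)⁻¹ * (h j0 * x) := by
      simp only [u]
      group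
    rw [this]
    exact hj
  choose i1 hi1 using hg'
  choose j1 hj1 using hu'
  let F1 : G → G := fun x => (g (i1 x))⁻¹ * x
  let F2 : G → G := fun x => (u (j1 x))⁻¹ * x
  have hF1 : Function.Injective F1 := by
    intro x y hxy
    have h1 : i1 x = i1 y := by
      by_contra hne
      exact Set.disjoint_left.1 (hP _ _ hne) (hi1 x) (by
        have : (g (i1 x))⁻¹ * x = (g (i1 y))⁻¹ * y := hxy
        rw [this]; exact hi1 y)
    have h2 : (g (i1 x))⁻¹ * x = (g (i1 y))⁻¹ * y := hxy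
    rw [h1] at h2
    exact mul_left_cancel h2
  have hF2 : Function.Injective F2 := by
    intro x y hxy
    have h1 : j1 x = j1 y := by
      by_contra hne
      exact Set.disjoint_left.1 (hQ _ _ hne) (hj1 x) (by
        have : (u (j1 x))⁻¹ * x = (u (j1 y))⁻¹ * y := hxy
        rw [this]; exact hj1 y)
    have h2 : (u (j1 x))⁻¹ * x = (u (j1 y))⁻¹ * y := hxy
    rw [h1] at h2
    exact mul_left_cancel h2
  let C : Set G := (Set.range F1)ᶜ
  have hC : ∀ x, F2 x ∈ C := by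
    rintro x ⟨z, hz⟩
    have h1 : F1 z ∈ P (i1 z) := hi1 z
    have h2 : F2 x ∈ Q (j1 x) := hj1 x
    rw [hz] at h1
    exact Set.disjoint_left.1 (hPQ _ _) h1 h2
  obtain ⟨b, hb, hbR⟩ := Function.Embedding.schroeder_bernstein_of_rel
    (f := fun x : G => (⟨F2 x, hC x⟩ : C)) (g := fun c : C => (c : G))
    (fun x z hxz => hF2 (congrArg Subtype.val hxz)) Subtype.val_injective
    (fun x c => ∃ j, (u j)⁻¹ * x = c) (fun x => ⟨j1 x, rfl⟩)
    (fun c => ⟨j0, by simp [hu0]⟩)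
  choose i2 hi2 using hbR
  refine ⟨fun i => {z | ∃ x, i1 x = i ∧ F1 x = z}, fun j => {z | ∃ x, i2 x = j ∧ (b x : G) = z},
    g, u, ?_, ?_, ?_⟩
  · intro z
    by_cases hz : z ∈ Set.range F1
    · obtain ⟨x, hx⟩ := hz
      refine ⟨Sum.inl (i1 x), ⟨x, rfl, hx⟩, ?_⟩
      rintro (i | j) hp
      · obtain ⟨y, hy1, hy2⟩ := hp
        rw [hF1 (hy2.trans hx.symm)] at hy1
        rw [hy1]
      · obtain ⟨y, hy1, hy2⟩ := hp
        exfalso
        have h1 : (b y : G) ∈ C := (b y).2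
        rw [hy2] at h1
        exact h1 ⟨x, hx⟩
    · obtain ⟨x, hx⟩ := hb.2 ⟨z, hz⟩
      have hx' : (b x : G) = z := by rw [hx]
      refine ⟨Sum.inr (i2 x), ⟨x, rfl, hx'⟩, ?_⟩
      rintro (i | j) hp
      · obtain ⟨y, hy1, hy2⟩ := hp
        exact absurd ⟨y, hy2⟩ hz
      · obtain ⟨y, hy1, hy2⟩ := hp
        have h1 : y = x := hb.1 (Subtype.ext (hy2.trans hx'.symm))
        rw [h1] at hy1
        rw [hy1]
  · intro x
    refine ⟨i1 x, ⟨x, rfl, rfl⟩, ?_⟩
    rintro i ⟨y, hy1, hy2⟩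
    have h1 : y = x := by
      have h2 : (g (i1 y))⁻¹ * y = (g i)⁻¹ * x := hy2
      rw [hy1] at h2
      exact mul_left_cancel h2
    rw [← hy1, h1]
  · intro x
    refine ⟨i2 x, ⟨x, rfl, (hi2 x).symm⟩, ?_⟩
    rintro j ⟨y, hy1, hy2⟩
    have h1 : y = x := by
      rw [← hi2 y, hy1] at hy2
      exact mul_left_cancel hy2
    rw [← hy1, h1]

end HNum
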