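import Pool.Agent.Lib.MP_354e85_al.HN.Basic

/-! The generating family. -/

open MeasureTheory Set

namespace HNum

open Pool.Agent.Lib.MP_354e85_al (bern)
open Pool.Agent.Lib.MP_354e85_al.Lim (Low Kept Edge)

variable {G : Type} [Group G]

/-- The subgroup generated by the hub and the first `i` elements. -/
def Lv {n : ℕ} (a : Fin n → G) (s : ℕ → G) (i : ℕ) : Subgroup G :=
  Subgroup.closure (Set.range a ∪ s '' {j | j < i})

/-- The labels of the family. -/
def lab {n : ℕ} (a : Fin n → G) (s : ℕ → G) : Fin n ⊕ ℕ → G := Sum.elim a s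

/-- The domains of the family. -/
def dom {n : ℕ} (a : Fin n → G) (s : ℕ → G) (M0 : ℕ) (M : ℕ → ℕ) :
    Fin n ⊕ ℕ → Set (G × ℕ → ℝ) :=
  Sum.elim (fun j => {ω | Kept ⊥ a (cl M0 (fun j : Fin n => (j : ℕ)) ω) univ 1 j})
    (fun i => {ω | Kept (Lv a s i) (fun _ : Unit => s i) (cl (M i) (fun _ => n + i) ω) univ 1 ()})

/-- Deleted edges are joined by lower edges. -/
private theorem graph_step {ι : Type} (L : Subgroup G) (c : ι → G) (κ : G → ι → ℕ)
    (R : G → G → Prop) (hL : ∀ l ∈ L, ∀ x, Relation.EqvGen R x (l * x))
    (hk : ∀ x j, Kept L c κ univ x j → R x (c j * x)) (x : G) (j : ι) :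
    Relation.EqvGen R x (c j * x) := by
  have main : ∀ k : ℕ, ∀ x j, κ x j = k → Relation.EqvGen R x (c j * x) := by
    intro k
    induction k using Nat.strong_induction_on with
    | _ k ih =>
      intro x j hxj
      by_cases h : Kept L c κ univ x j
      · exact Relation.EqvGen.rel _ _ (hk x j h)
      · unfold Kept at h
        push Not at h
        rw [hxj] at h
        have step : ∀ p q : G, Relation.EqvGen (Low L c κ univ k) p q →
            Relation.EqvGen R p q := by
          intro p q hpq
          induction hpq with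
          | rel p q h =>
            rcases h with ⟨l, hl, rfl⟩ | ⟨i, -, hlt, rfl⟩
            · exact hL l hl p
            · exact ih _ hlt p i rfl
          | refl p => exact Relation.EqvGen.refl _
          | symm p q _ ih' => exact ih'.symm _ _
          | trans p q r _ _ ih1 ih2 => exact ih1.trans _ _ _ ih2
        exact step _ _ h
  exact main _ x j rfl

theorem family_gen {n : ℕ} (a : Fin n → G) (s : ℕ → G) (hs : Function.Surjective s) (M0 : ℕ)
    (M : ℕ → ℕ) (ω : G × ℕ → ℝ) (g : G) :
    Relation.EqvGen (Edge act (lab a s) (dom a s M0 M) ω) 1 g := by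
  set R := Edge act (lab a s) (dom a s M0 M) ω with hR
  have hhub : ∀ (j : Fin n) (x : G), Relation.EqvGen R x (a j * x) := by
    intro j x
    refine graph_step ⊥ a (cl M0 (fun j : Fin n => (j : ℕ)) ω) R ?_ ?_ x j
    · intro l hl x
      rw [Subgroup.mem_bot.1 hl, one_mul]
      exact Relation.EqvGen.refl _
    · intro x j hxj
      refine ⟨Sum.inl j, ?_, rfl⟩
      change Kept ⊥ a (cl M0 (fun j : Fin n => (j : ℕ)) (act x ω)) univ 1 j
      rw [kept_act, one_mul]
      exact hxj
  have hlv : ∀ i : ℕ, ∀ l ∈ Lv a s i, ∀ x, Relation.EqvGen R x (l * x) := by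
    intro i
    induction i using Nat.strong_induction_on with
    | _ i ih =>
      intro l hl
      unfold Lv at hl
      induction hl using Subgroup.closure_induction with
      | mem y hy =>
        intro x
        rcases hy with ⟨j, rfl⟩ | ⟨j, hj, rfl⟩
        · exact hhub j x
        · refine graph_step (Lv a s j) (fun _ : Unit => s j) (cl (M j) (fun _ => n + j) ω) R
            (ih j hj) ?_ x ()
          intro x u hx
          refine ⟨Sum.inr j, ?_, rfl⟩
          change Kept (Lv a s j) (fun _ : Unit => s j) (cl (M j) (fun _ => n + j) (act x ω))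
            univ 1 ()
          rw [kept_act, one_mul]
          exact hx
      | one =>
        intro x
        rw [one_mul]
        exact Relation.EqvGen.refl _
      | mul y w _ _ hy hw =>
        intro x
        rw [mul_assoc]
        exact (hw x).trans _ _ _ (hy _)
      | inv y _ hy =>
        intro x
        have h1 := hy (y⁻¹ * x)
        rw [mul_inv_cancel_left] at h1
        exact h1.symm _ _
  obtain ⟨i, rfl⟩ := hs g
  have h1 : s i ∈ Lv a s (i + 1) :=
    Subgroup.subset_closure (Or.inr ⟨i, Nat.lt_succ_self i, rfl⟩)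
  have h2 := hlv (i + 1) _ h1 1
  rwa [mul_one] at h2

end HNum
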