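import Pool.Agent.Lib.MP_354e85_al.HN.Tie
import Pool.Agent.Lib.MP_354e85_al.HN.Count

/-! The expected number of kept edges in a finite set. -/

open MeasureTheory Set

namespace HNum

open Pool.Agent.Lib.MP_354e85_al (bern prob01)
open Pool.Agent.Lib.MP_354e85_al.Lim (Low Kept)

theorem kept_prob {G : Type} [Group G] [Countable G] {ι : Type} [Fintype ι] (L : Subgroup G)
    (c : ι → G) (e : ι → ℕ) (he : Function.Injective e) (B : Finset G) (hB : B.Nonempty)
    (V : Finset (Quotient (QuotientGroup.rightRel L)))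
    (hV0 : ∀ b ∈ B, Quotient.mk (QuotientGroup.rightRel L) b ∈ V)
    (hV1 : ∀ b ∈ B, ∀ j, Quotient.mk (QuotientGroup.rightRel L) (c j * b) ∈ V)
    (M : ℕ) (hM0 : 0 < M) (hM : (B.card * Fintype.card ι) ^ 3 ≤ M) :
    (B.card : ENNReal) * ∑ j, pk L c e M j ≤ V.card := by
  classical
  set n := B.card * Fintype.card ι with hn
  let P : Finset (G × ι) := B ×ˢ Finset.univ
  have hPc : P.card = n := by
    rw [Finset.card_product, Finset.card_univ]
  have hV : 0 < V.card := by
    obtain ⟨b, hb⟩ := hB
    exact Finset.card_pos.2 ⟨_, hV0 b hb⟩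
  let D : Set (G × ℕ → ℝ) :=
    ⋃ r ∈ (P ×ˢ P).filter (fun r => r.1 ≠ r.2),
      {ω | cl M e ω r.1.1 r.1.2 = cl M e ω r.2.1 r.2.2}
  have hDm : MeasurableSet D := by
    refine Finset.measurableSet_biUnion _ fun r _ => ?_
    exact measurableSet_eq_fun (measurable_cl M e _ _) (measurable_cl M e _ _)
  have hDμ : bern (G × ℕ) D ≤ (n * n : ℕ) * (M : ENNReal)⁻¹ := by
    refine (measure_biUnion_finset_le _ _).trans ?_
    refine (Finset.sum_le_card_nsmul _ _ ((M : ENNReal)⁻¹) ?_).trans ?_
    · intro r hr
      rw [Finset.mem_filter, Finset.mem_product] at hr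
      obtain ⟨⟨h1, h2⟩, h3⟩ := hr
      refine tie_prob M hM0 (r.1.1, e r.1.2) (r.2.1, e r.2.2) ?_
      intro h
      rw [Prod.mk.injEq] at h
      exact h3 (Prod.ext h.1 (he h.2))
    · rw [nsmul_eq_mul]
      gcongr
      refine (Finset.card_filter_le _ _).trans ?_
      rw [Finset.card_product, hPc]
  -- pointwise count
  let f : (G × ℕ → ℝ) → ENNReal := fun ω =>
    ∑ j, ∑ b ∈ B, ({ω | Kept L c (cl M e ω) univ b j} : Set (G × ℕ → ℝ)).indicator 1 ω
  have hf : ∫⁻ ω, f ω ∂(bern (G × ℕ)) = B.card * ∑ j, pk L c e M j := by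
    simp only [f]
    rw [lintegral_finsetSum' _ (fun j _ => ?_)]
    · rw [Finset.mul_sum]
      refine Finset.sum_congr rfl fun j _ => ?_
      rw [lintegral_finsetSum' _ (fun b _ => ?_)]
      · have : ∀ b ∈ B, ∫⁻ ω, ({ω | Kept L c (cl M e ω) univ b j} :
            Set (G × ℕ → ℝ)).indicator 1 ω ∂(bern (G × ℕ)) = pk L c e M j := by
          intro b _
          rw [lintegral_indicator_one (measurableSet_kept L c M e b j), pk_at]
        rw [Finset.sum_congr rfl this, Finset.sum_const, nsmul_eq_mul]
      · exact (measurable_one.indicator (measurableSet_kept L c M e b j)).aemeasurable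
    · exact (Finset.measurable_fun_sum _ fun b _ =>
        measurable_one.indicator (measurableSet_kept L c M e b j)).aemeasurable
  have e0 : ∀ ω j, {b | b ∈ B ∧ Kept L c (cl M e ω) univ b j}.ncard =
      (B.filter (fun b => Kept L c (cl M e ω) univ b j)).card := by
    intro ω j
    rw [← Set.ncard_coe_finset]
    congr 1
    ext b
    simp
  have hcount : ∀ ω, f ω =
      ((∑ j, {b | b ∈ B ∧ Kept L c (cl M e ω) univ b j}.ncard : ℕ) : ENNReal) := by
    intro ω
    simp only [f]
    rw [Nat.cast_sum]
    refine Finset.sum_congr rfl fun j _ => ?_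
    rw [e0, Finset.card_filter]
    push_cast
    refine Finset.sum_congr rfl fun b _ => ?_
    by_cases h : Kept L c (cl M e ω) univ b j
    · simp [indicator, h]
    · simp [indicator, h]
  have hbound : ∀ ω, f ω ≤ ((V.card - 1 : ℕ) : ENNReal) +
      (n : ENNReal) * D.indicator (1 : (G × ℕ → ℝ) → ENNReal) ω := by
    intro ω
    by_cases hv : ω ∈ D
    · rw [hcount, indicator_of_mem hv]
      simp only [Pi.one_apply, mul_one]
      rw [← Nat.cast_add]
      refine Nat.cast_le.2 ?_
      have h1 : ∑ j, {b | b ∈ B ∧ Kept L c (cl M e ω) univ b j}.ncard ≤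
          ∑ _j : ι, B.card := by
        refine Finset.sum_le_sum fun j _ => ?_
        rw [e0]
        exact Finset.card_filter_le _ _
      rw [Finset.sum_const, Finset.card_univ, smul_eq_mul] at h1
      have h2 : Fintype.card ι * B.card = n := by rw [hn, mul_comm]
      omega
    · rw [hcount, indicator_of_notMem hv, mul_zero, add_zero]
      have hk : (∑ j, {b | b ∈ B ∧ Kept L c (cl M e ω) univ b j}.ncard) + 1 ≤ V.card := by
        refine multi_kept L c (cl M e ω) B hB V hV0 hV1 ?_
        intro b hb b' hb' j j' hκ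
        by_contra hcon
        apply hv
        simp only [D, mem_iUnion]
        refine ⟨((b, j), (b', j')), ?_, ?_⟩
        · rw [Finset.mem_filter, Finset.mem_product, Finset.mem_product, Finset.mem_product]
          refine ⟨⟨⟨hb, Finset.mem_univ _⟩, ⟨hb', Finset.mem_univ _⟩⟩, ?_⟩
          intro h
          apply hcon
          simpa using h
        · exact hκ
      exact Nat.cast_le.2 (by omega)
  rw [← hf]
  calc ∫⁻ ω, f ω ∂(bern (G × ℕ)) ≤ ∫⁻ ω, (((V.card - 1 : ℕ) : ENNReal) +
        (n : ENNReal) * D.indicator (1 : (G × ℕ → ℝ) → ENNReal) ω) ∂(bern (G × ℕ)) :=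
        lintegral_mono hbound
    _ = ((V.card - 1 : ℕ) : ENNReal) + (n : ENNReal) * bern (G × ℕ) D := by
        rw [lintegral_add_left measurable_const, lintegral_const, measure_univ, mul_one,
          lintegral_const_mul _ (measurable_one.indicator hDm), lintegral_indicator_one hDm]
    _ ≤ ((V.card - 1 : ℕ) : ENNReal) + 1 := by
        gcongr
        calc (n : ENNReal) * bern (G × ℕ) D
            ≤ (n : ENNReal) * ((n * n : ℕ) * (M : ENNReal)⁻¹) := by gcongr
          _ = ((n ^ 3 : ℕ) : ENNReal) * (M : ENNReal)⁻¹ := by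
              rw [← mul_assoc, ← Nat.cast_mul]
              congr 2
              ring
          _ ≤ (M : ENNReal) * (M : ENNReal)⁻¹ := by gcongr
          _ = 1 := ENNReal.mul_inv_cancel (by simpa using hM0.ne') (by simp)
    _ = V.card := by
        have h2 : V.card - 1 + 1 = V.card := by omega
        calc ((V.card - 1 : ℕ) : ENNReal) + 1 = ((V.card - 1 + 1 : ℕ) : ENNReal) := by
              push_cast; rfl
          _ = V.card := by rw [h2]

end HNum
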