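import Pool.Agent.Lib.MP_354e85_al.HN.Basic

/-! Two different edges have the same class with probability at most `1 / M`. -/

open MeasureTheory Set

namespace HNum

open Pool.Agent.Lib.MP_354e85_al (bern prob01)

private theorem tie_fibre (M : ℕ) (hM : 0 < M) (k : ℕ) :
    (volume.restrict (Icc (0 : ℝ) 1)) {u : ℝ | k = ⌊(M : ℝ) * u⌋₊} ≤ (M : ENNReal)⁻¹ := by
  have hM' : (0 : ℝ) < M := by exact_mod_cast hM
  rw [Measure.restrict_apply' measurableSet_Icc]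
  have hsub : {u : ℝ | k = ⌊(M : ℝ) * u⌋₊} ∩ Icc (0 : ℝ) 1 ⊆
      Ico ((k : ℝ) / M) (((k : ℝ) + 1) / M) := by
    rintro u ⟨hu, hu1⟩
    have hu' : k = ⌊(M : ℝ) * u⌋₊ := hu
    have h0 : 0 ≤ (M : ℝ) * u := mul_nonneg hM'.le hu1.1
    have h1 := Nat.floor_le h0
    have h2 := Nat.lt_floor_add_one ((M : ℝ) * u)
    rw [← hu'] at h1 h2
    constructor
    · rw [div_le_iff₀ hM']
      linarith
    · rw [lt_div_iff₀ hM']
      linarith
  refine (measure_mono hsub).trans ?_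
  rw [Real.volume_Ico]
  have e : ((k : ℝ) + 1) / M - (k : ℝ) / M = (M : ℝ)⁻¹ := by
    rw [← sub_div, add_sub_cancel_left, one_div]
  rw [e, ENNReal.ofReal_inv_of_pos hM', ENNReal.ofReal_natCast]

theorem tie_prob {G : Type} (M : ℕ) (hM : 0 < M) (p q : G × ℕ) (hpq : p ≠ q) :
    bern (G × ℕ) {ω : G × ℕ → ℝ | ⌊(M : ℝ) * ω p⌋₊ = ⌊(M : ℝ) * ω q⌋₊} ≤ (M : ENNReal)⁻¹ := by
  have := prob01
  have h := Measure.infinitePi_map_eval_prod
    (P := fun _ : G × ℕ => volume.restrict (Icc (0 : ℝ) 1)) hpq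
  have hm : MeasurableSet {r : ℝ × ℝ | ⌊(M : ℝ) * r.1⌋₊ = ⌊(M : ℝ) * r.2⌋₊} :=
    measurableSet_eq_fun (Nat.measurable_floor.comp (measurable_fst.const_mul _))
      (Nat.measurable_floor.comp (measurable_snd.const_mul _))
  have h2 : (bern (G × ℕ)).map (fun y => (y p, y q))
      {r : ℝ × ℝ | ⌊(M : ℝ) * r.1⌋₊ = ⌊(M : ℝ) * r.2⌋₊} ≤ (M : ENNReal)⁻¹ := by
    unfold bern
    rw [h, Measure.prod_apply hm]
    refine (lintegral_mono (fun x => tie_fibre M hM ⌊(M : ℝ) * x⌋₊)).trans ?_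
    rw [lintegral_const, measure_univ, mul_one]
  rw [Measure.map_apply (by fun_prop) hm] at h2
  exact h2

end HNum
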