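import Pool.Agent.Lib.MP_354e85_al.HN.Beta
import Pool.Agent.Lib.MP_354e85_al.HN.Graph
import Pool.Agent.Lib.MP_354e85_al.Lim.Iter

/-! The upper bound for half numbers. -/

open MeasureTheory Set

namespace HNum

theorem tsum_half (η : ℝ) (hη : 0 ≤ η) :
    ∑' i : ℕ, ENNReal.ofReal (η * (1 / 2) ^ (i + 1)) = ENNReal.ofReal η := by
  have h1 : ∀ i : ℕ, ENNReal.ofReal (η * (1 / 2) ^ (i + 1)) =
      ENNReal.ofReal η * (2⁻¹ : ENNReal) ^ (i + 1) := by
    intro i
    rw [ENNReal.ofReal_mul hη, ENNReal.ofReal_pow (by norm_num), one_div,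
      ENNReal.ofReal_inv_of_pos (by norm_num), ENNReal.ofReal_ofNat]
  simp only [h1]
  rw [ENNReal.tsum_mul_left]
  have h2 : ∑' i : ℕ, (2⁻¹ : ENNReal) ^ (i + 1) = 1 := by
    rw [ENNReal.tsum_geometric_add_one, ENNReal.one_sub_inv_two, inv_inv]
    exact ENNReal.inv_mul_cancel (by norm_num) (by norm_num)
  rw [h2, mul_one]

theorem upper {G : Type} [Group G] [Countable G] {ε : ℝ} (hε : 0 < ε)
    (hc : Pool.Agent.Lib.MP_354e85_al.CostGE G ε) {n : ℕ} (a : Fin n → G) (hinf : Infinite (Subgroup.closure (Set.range a))) :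
    ∃ N, Parad G (n + 1) N := by
  by_contra hcon
  push Not at hcon
  obtain ⟨η, hη, hηr⟩ : ∃ η : ℝ, 0 < η ∧ 1 + η + η < 1 + ε := ⟨ε / 3, by linarith, by linarith⟩
  obtain ⟨M0, -, hM0⟩ := alpha a hcon (fun j : Fin n => (j : ℕ)) Fin.val_injective η hη
  obtain ⟨s, hs⟩ := exists_surjective_nat G
  have hb : ∀ i : ℕ, ∃ M, 0 < M ∧
      pk (Lv a s i) (fun _ : Unit => s i) (fun _ => n + i) M () <
        ENNReal.ofReal (η * (1 / 2) ^ (i + 1)) := by
    intro i
    refine beta a hinf hcon (Lv a s i) ?_ (s i) _ _ (by positivity)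
    exact Subgroup.closure_mono subset_union_left
  choose M hMpos hM using hb
  have hlev : Pool.Agent.Lib.MP_354e85_al.Lim.Lev G ⊥
      (∑' i, Pool.Agent.Lib.MP_354e85_al.bern (G × ℕ) (dom a s M0 M i)) := by
    refine ⟨G × ℕ → ℝ, inferInstance, inferInstance, Pool.Agent.Lib.MP_354e85_al.bern (G × ℕ),
      inferInstance, act, ⟨act_one, act_mul, act_mp, fun g hg z => ?_⟩, Fin n ⊕ ℕ, inferInstance,
      lab a s, dom a s M0 M, fun i => ?_,
      Filter.Eventually.of_forall fun ω g => family_gen a s hs M0 M ω g, le_refl _⟩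
    · rw [Subgroup.mem_bot.1 hg, act_one]
    · rcases i with j | i
      · exact measurableSet_kept ⊥ a M0 (fun j : Fin n => (j : ℕ)) 1 j
      · exact measurableSet_kept (Lv a s i) (fun _ : Unit => s i) (M i) (fun _ => n + i) 1 ()
  have key := Pool.Agent.Lib.MP_354e85_al.Lim.lev_cost hc hlev
  rw [ENNReal.summable.tsum_sum ENNReal.summable, tsum_fintype] at key
  have h1 : ∑ j, Pool.Agent.Lib.MP_354e85_al.bern (G × ℕ) (dom a s M0 M (Sum.inl j)) ≤
      ENNReal.ofReal (1 + η) := hM0.le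
  have h2 : ∑' i, Pool.Agent.Lib.MP_354e85_al.bern (G × ℕ) (dom a s M0 M (Sum.inr i)) ≤
      ENNReal.ofReal η := by
    rw [← tsum_half η hη.le]
    exact ENNReal.tsum_le_tsum fun i => (hM i).le
  have h3 : ENNReal.ofReal (1 + ε) ≤ ENNReal.ofReal (1 + η + η) := by
    refine key.trans ((add_le_add h1 h2).trans ?_)
    rw [← ENNReal.ofReal_add (by linarith) hη.le]
  exact absurd h3 (not_le.2 ((ENNReal.ofReal_lt_ofReal_iff (by linarith)).2 hηr))

end HNum
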